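import Pool.Agent.Y6.H.Stm
import Pool.Agent.Y331.EF.Scale

set_option autoImplicit false

/-! # The scaling of solutions (project HR of helper6; adaptation of `Pool/Agent/Y815/EP/SCQ.lean`
of helper815, itself adapted from files of helper331 and helper273) -/

open Set Filter Topology
open scoped ComplexConjugate

namespace Pool.Agent.Y730.HR.SCH

open Pool.Agent.Y6.M (Z3 C3 Coef dt cr cj kc nsq len adv leray Kop IsField IsSol energy enstr Md br)
open Pool.Agent.Y331.EF.SCALE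
open Pool.Agent.Y6.H (mH nH Odd0 GapH Blow Sp npar)

lemma odd_mul (l : ℝ) {ω : Md → ℝ} (h : Odd0 ω) : Odd0 (fun i => l * ω i) := by
  refine ⟨fun i => ?_, fun i hi => ?_⟩
  · show l * ω (br i) = -(l * ω i)
    rw [h.1 i]
    ring
  · show l * ω i = 0
    rw [h.2 i hi, mul_zero]

lemma mH_mul (l : ℝ) (ω : Md → ℝ) (k : Z3) : mH (fun i => l * ω i) k = l * mH ω k := by
  unfold Pool.Agent.Y6.H.mH
  by_cases hk : k = 0
  · rw [dif_pos hk, dif_pos hk, mul_zero]
  · rw [dif_neg hk, dif_neg hk]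
    ring

lemma nH_mul (l : ℝ) (ω : Md → ℝ) (k : Z3) : nH (fun i => l * ω i) k = l * nH ω k := by
  unfold Pool.Agent.Y6.H.nH
  by_cases hk : k = 0
  · rw [dif_pos hk, dif_pos hk, mul_zero]
  · rw [dif_neg hk, dif_neg hk]
    ring

lemma gap_mul {l κ K : ℝ} (hl : 0 < l) (hK : K ≤ l * κ) {ω : Md → ℝ} (h : GapH κ ω) :
    GapH K (fun i => l * ω i) := by
  have key : ∀ x y : ℝ, 0 ≤ x → κ * x ≤ |y| → K * x ≤ |l * y| := by
    intro x y hx h
    rw [abs_mul, abs_of_pos hl]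
    calc K * x ≤ (l * κ) * x := mul_le_mul_of_nonneg_right hK hx
      _ = l * (κ * x) := by ring
      _ ≤ _ := mul_le_mul_of_nonneg_left h hl.le
  obtain ⟨h1, h2, h3⟩ := h
  refine ⟨fun i hi => key _ _ ((by decide : Even 16).pow_nonneg _) (h1 i hi),
    fun i a hi ha hn => ?_, fun i a b hi ha hb he hn => ?_⟩
  · have e : l * ω a - l * ω i = l * (ω a - ω i) := by ring
    show _ ≤ |l * ω a - l * ω i|
    rw [e]
    exact key _ _ ((by decide : Even 12).pow_nonneg _) (h2 i a hi ha hn)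
  · have e : l * ω a + l * ω b - l * ω i = l * (ω a + ω b - ω i) := by ring
    show _ ≤ |l * ω a + l * ω b - l * ω i|
    rw [e]
    exact key _ _ ((by decide : Even 12).pow_nonneg _) (h3 i a b hi ha hb he hn)

theorem t_SCH : Pool.Agent.Y6.H.S_SCH := by
  rintro ⟨V₀, hV₀, hmain⟩ ω hω κ hκ hgap q ε hε
  obtain ⟨M0, hM0⟩ := hV₀.smooth q
  obtain ⟨K, hK⟩ : ∃ K : ℝ, K = 10 ^ 60 := ⟨_, rfl⟩
  have hK0 : 0 < K := by rw [hK]; positivity
  rw [← hK] at hmain
  obtain ⟨l, hl⟩ : ∃ l : ℝ, l = min (κ / K) (ε / (|M0| + 1)) := ⟨_, rfl⟩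
  have hl0 : 0 < l := by
    rw [hl]
    exact lt_min (by positivity) (by positivity)
  have hlM : l * M0 ≤ ε := by
    have h1 : l ≤ ε / (|M0| + 1) := by rw [hl]; exact min_le_right _ _
    have h2 : M0 ≤ |M0| + 1 := by linarith [le_abs_self M0]
    have h3 : 0 < |M0| + 1 := by positivity
    calc l * M0 ≤ l * (|M0| + 1) := mul_le_mul_of_nonneg_left h2 hl0.le
      _ ≤ ε / (|M0| + 1) * (|M0| + 1) := mul_le_mul_of_nonneg_right h1 h3.le
      _ = ε := div_mul_cancel₀ _ h3.ne'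
  have hinv : 0 < l⁻¹ := inv_pos.mpr hl0
  have hlK : K ≤ l⁻¹ * κ := by
    have h1 : l ≤ κ / K := by rw [hl]; exact min_le_left _ _
    rw [← div_eq_inv_mul, le_div_iff₀ hl0]
    rw [le_div_iff₀ hK0] at h1
    linarith
  obtain ⟨T, V, hT, hV0, hsol, huniq, hen, hens⟩ := hmain _ (odd_mul l⁻¹ hω)
    (gap_mul hinv hlK hgap)
  have em : mH (fun i => l⁻¹ * ω i) = fun k => l⁻¹ * mH ω k :=
    funext fun k => mH_mul l⁻¹ ω k
  have en : nH (fun i => l⁻¹ * ω i) = fun k => l⁻¹ * nH ω k :=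
    funext fun k => nH_mul l⁻¹ ω k
  have em' : (fun k => l * mH (fun i => l⁻¹ * ω i) k) = mH ω := by
    funext k
    rw [mH_mul, ← mul_assoc, mul_inv_cancel₀ hl0.ne', one_mul]
  have en' : (fun k => l * nH (fun i => l⁻¹ * ω i) k) = nH ω := by
    funext k
    rw [nH_mul, ← mul_assoc, mul_inv_cancel₀ hl0.ne', one_mul]
  refine ⟨T / l, fun t => sc l (V (l * t)), ?_, by positivity, ?_, ?_, ?_, ?_⟩
  · intro k j
    simp only [mul_zero]
    rw [sc_apply, norm_mul, Complex.norm_real, Real.norm_eq_abs, abs_of_pos hl0, hV0]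
    calc len k ^ q * (l * ‖V₀ k j‖) = l * (len k ^ q * ‖V₀ k j‖) := by ring
      _ ≤ l * M0 := mul_le_mul_of_nonneg_left (hM0 k j) hl0.le
      _ ≤ ε := hlM
  · have h1 := sol_sc l hl0 hsol
    rw [em', en'] at h1
    exact h1
  · intro T' W hT' hW hW0
    have h1 := sol_sc l⁻¹ hinv hW
    rw [← em, ← en, div_inv_eq_mul] at h1
    have h2 : (fun t => sc l⁻¹ (W (l⁻¹ * t))) 0 = V 0 := by
      simp only [mul_zero]
      rw [hW0]
      simp only [mul_zero]
      exact sc_sc l hl0 _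
    obtain ⟨h3, h4⟩ := huniq (T' * l) _ (by positivity) h1 h2
    refine ⟨(le_div_iff₀ hl0).mpr h3, ?_⟩
    intro t ht
    have h5 : l * t ∈ Ico 0 (T' * l) := by
      refine ⟨mul_nonneg hl0.le ht.1, ?_⟩
      rw [mul_comm]
      exact mul_lt_mul_of_pos_right ht.2 hl0
    have h6 := h4 (l * t) h5
    rw [← mul_assoc, inv_mul_cancel₀ hl0.ne', one_mul] at h6
    change W t = sc l (V (l * t))
    rw [← h6, sc_sc' l hl0]
  · intro t ht
    have ht' : l * t ∈ Ico 0 T := by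
      refine ⟨mul_nonneg hl0.le ht.1, ?_⟩
      have := (lt_div_iff₀ hl0).mp ht.2
      linarith
    simp only [mul_zero]
    rw [energy_sc, energy_sc, hen _ ht']
  · intro M
    obtain ⟨t, ht, hMt⟩ := hens (M / l ^ 2)
    refine ⟨t / l, ⟨div_nonneg ht.1 hl0.le, div_lt_div_of_pos_right ht.2 hl0⟩, ?_⟩
    have e : l * (t / l) = t := by field_simp
    simp only [e]
    rw [enstr_sc]
    rw [div_lt_iff₀ (by positivity)] at hMt
    linarith

end Pool.Agent.Y730.HR.SCH
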